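import Pool.Agent.H82.HelC

open Set

namespace Pool.Agent.Results.MP_36375e_gt.No

/-- the Helly space: non-decreasing maps of the unit interval to itself, pointwise topology -/
def Helly : Set (unitInterval → unitInterval) := {f | Monotone f}

/-- scatteredly continuous real functions on the Baire space -/
def SC : Set ((ℕ → ℕ) → ℝ) :=
  {g | ∀ A : Set (ℕ → ℕ), A.Nonempty → ∃ a ∈ A, ContinuousWithinAt g A a}

open Pool.Agent.H82.Hel

/-- the open unit interval mapped onto the line -/
noncomputable def ψ (x : unitInterval) (h : 0 < x.1 ∧ x.1 < 1) : ℝ :=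
  (orderIsoIooNegOneOne ℝ).symm ⟨2 * x.1 - 1, by constructor <;> linarith [h.1, h.2]⟩

open Classical in
/-- transfer of a monotone map from the line to the unit interval -/
noncomputable def tr (f : H) (x : unitInterval) : unitInterval :=
  if h : 0 < x.1 ∧ x.1 < 1 then ⟨f.1 (ψ x h), f.2.2 _⟩ else x

theorem tr_mem (f : H) : tr f ∈ Helly := by
  intro x y hxy
  unfold tr
  split_ifs with h1 h2 h2
  · exact f.2.1 ((orderIsoIooNegOneOne ℝ).symm.monotone (by
      have : x.1 ≤ y.1 := hxy
      show 2 * x.1 - 1 ≤ 2 * y.1 - 1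
      linarith))
  · have : (1 : ℝ) ≤ y.1 := not_lt.1 fun h => h2 ⟨h1.1.trans_le hxy, h⟩
    exact (f.2.2 _).2.trans this
  · have : x.1 ≤ 0 := not_lt.1 fun h => h1 ⟨h, lt_of_le_of_lt hxy h2.2⟩
    exact this.trans (f.2.2 _).1
  · exact hxy

theorem tr_cont : Continuous tr := by
  refine continuous_pi fun x => ?_
  unfold tr
  split_ifs with h
  · exact ((continuous_apply _).comp continuous_subtype_val).subtype_mk _
  · exact continuous_const

theorem tr_inj : Function.Injective tr := by
  intro f g hfg
  refine Subtype.ext (funext fun r => ?_)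
  obtain ⟨h1, h2⟩ := (orderIsoIooNegOneOne ℝ r).2
  let x : unitInterval := ⟨((orderIsoIooNegOneOne ℝ r).1 + 1) / 2, by constructor <;> linarith⟩
  have hx : 0 < x.1 ∧ x.1 < 1 := by constructor <;> simp only [x] <;> linarith
  have hr : ψ x hx = r := by
    unfold ψ
    rw [OrderIso.symm_apply_eq]
    refine Subtype.ext ?_
    simp only [x]
    ring
  have := congrArg Subtype.val (congrFun hfg x)
  simp only [tr, dif_pos hx, hr] at this
  exact this

/-- No compact set of scatteredly continuous functions on the Baire space is homeomorphic to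
the Helly space. -/
theorem result : ¬ ∃ K : Set ((ℕ → ℕ) → ℝ), K ⊆ SC ∧ IsCompact K ∧ Nonempty (Helly ≃ₜ K) := by
  rintro ⟨K, hK, -, ⟨φ⟩⟩
  classical
  let e : (ℝ → ℝ) → (ℕ → ℕ) → ℝ := fun f =>
    if h : f ∈ H then (φ ⟨tr ⟨f, h⟩, tr_mem _⟩).1 else 0
  refine main (e := e) (fun p => continuousOn_iff_continuous_domRestrict.2 ?_)
    (fun f hf g hg h5 => ?_) fun f hf => ?_
  · have : H.domRestrict (fun f => e f p) = fun f : H => (φ ⟨tr f, tr_mem _⟩).1 p :=
      funext fun f => congrFun (dif_pos f.2) p
    rw [this]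
    exact (continuous_apply p).comp (continuous_subtype_val.comp (φ.continuous.comp
      (tr_cont.subtype_mk _)))
  · simp only [e, dif_pos hf, dif_pos hg] at h5
    exact congrArg Subtype.val
      (tr_inj (congrArg Subtype.val (φ.injective (Subtype.ext h5))))
  · simp only [e, dif_pos hf]
    exact hK (φ _).2

end Pool.Agent.Results.MP_36375e_gt.No
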